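import Mathlib
import Pool.Agent.H48R3.MB.Main

/-!
# An algebraic isometric embedding of the complete flat Moebius band into Euclidean 4-space

The definitions `MoebiusBand`, `IsIsometricEmbedding` and `IsAlgebraicSurface` are in
`Pool.Agent.H48R3.MB.Defs`.

Construction. Let `c` be the closed algebraic space curve
`c(θ) = k (sin θ cos θ, sin³ θ cos θ, sin⁶ θ)` of length `w` (`θ` modulo `π`), `T` its unit tangent,
`B` its unit binormal (which changes sign after one turn) and `λ` the quotient of torsion and
curvature. The rectifying developable `c(θ) + s (λ(θ) T(θ) + B(θ))`, `|s| < S`, is an embedded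
algebraic flat Moebius band of width `2S` with straight edges. Then
`(c + s (λ T + B), s² / (S² - s²))` is an algebraic isometric embedding of the complete band.
-/

set_option autoImplicit false

namespace Pool.Agent.Results.MP_1b7163_gt.AlgebraicMoebiusBand

open Pool.Agent.H48R3.MB

/-- For every `w > 0` there is an isometric embedding of the complete flat Moebius band `M_w` into
Euclidean 4-space whose image lies in a two-dimensional real algebraic set. -/
theorem result : ∀ w : ℝ, 0 < w → ∃ X : MoebiusBand w → E4,
    IsIsometricEmbedding w X ∧ IsAlgebraicSurface (Set.range X) :=
  main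

end Pool.Agent.Results.MP_1b7163_gt.AlgebraicMoebiusBand
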